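import Pool.Agent.helper71.CL.Spec

set_option autoImplicit false

open MeasureTheory Set Filter Topology
open scoped ENNReal
open Pool.Agent.helper81.CW

noncomputable section

namespace Pool.Agent.CL

theorem TWO_div (V B s B1 B2 k1 k2 v1 v2 : ℝ≥0∞) (hs0 : s ≠ 0) (hs : s ≠ ∞) (h10 : B1 ≠ 0)
    (h1 : B1 ≠ ∞) (h20 : B2 ≠ 0) (h2 : B2 ≠ ∞) (hV : V ≤ s * ((k1 * v1) * (k2 * v2)))
    (hB : s * (B1 * B2) ≤ B) : V / B ≤ (k1 * k2) * ((v1 / B1) * (v2 / B2)) := by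
  calc V / B ≤ (s * ((k1 * v1) * (k2 * v2))) / (s * (B1 * B2)) := ENNReal.div_le_div hV hB
    _ = ((k1 * v1) * (k2 * v2)) / (B1 * B2) := ENNReal.mul_div_mul_left _ _ hs0 hs
    _ = (k1 * k2) * ((v1 / B1) * (v2 / B2)) := by
        rw [ENNReal.div_eq_inv_mul, ENNReal.div_eq_inv_mul, ENNReal.div_eq_inv_mul,
          ENNReal.mul_inv (Or.inl h10) (Or.inl h1)]
        ring

theorem TWO (hPRD : PRD_stmt) (hVLE : VLE_stmt) (hVON : VON_stmt) (hTST : TST_stmt)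
    (hBAL : BAL_stmt) (hMVN : MVN_stmt) (hMVB : MVB_stmt) : TWO_stmt := by
  intro d e hd he
  have hball : ∀ n : ℕ, volume (Metric.closedBall (0 : E n) (1 / 2)) ≠ 0 ∧
      volume (Metric.closedBall (0 : E n) (1 / 2)) ≠ ∞ := by
    intro n
    refine ⟨?_, ?_⟩
    · exact (Metric.measure_closedBall_pos volume (0 : E n) (by norm_num)).ne'
    · exact measure_closedBall_lt_top.ne
  have hK : ENNReal.ofReal (64 * √(d : ℝ) * √(e : ℝ))
      = ENNReal.ofReal (8 * √(d : ℝ)) * ENNReal.ofReal (8 * √(e : ℝ)) := by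
    rw [← ENNReal.ofReal_mul (by positivity)]
    congr 1
    ring
  have hdR : (0 : ℝ) < d := by exact_mod_cast hd
  have heR : (0 : ℝ) < e := by exact_mod_cast he
  have key : ∀ (C₁ : Set (E d)) (C₂ : Set (E e)), ConstWidth C₁ 1 → ConstWidth C₂ 1 →
      mvol (d + e) ≤ (ENNReal.ofReal (8 * √(d : ℝ)) * ENNReal.ofReal (8 * √(e : ℝ))) *
        ((volume C₁ / volume (Metric.closedBall (0 : E d) (1 / 2))) *
          (volume C₂ / volume (Metric.closedBall (0 : E e) (1 / 2)))) := by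
    intro C₁ C₂ h1 h2
    obtain ⟨t₁, ht1, -, hI1⟩ := hTST d C₁ hd h1
    obtain ⟨t₂, ht2, -, hI2⟩ := hTST e C₂ he h2
    have hT : 0 < t₁ + t₂ := by linarith
    have ha : 0 < t₁ / (t₁ + t₂) := by positivity
    have hb : 0 < t₂ / (t₁ + t₂) := by positivity
    have hab : t₁ / (t₁ + t₂) + t₂ / (t₁ + t₂) = 1 := by
      rw [← add_div]; exact div_self hT.ne'
    obtain ⟨C, hC, hCI⟩ := hPRD d e C₁ C₂ _ _ h1 h2 ha hb hab
    have e1 : (t₁ + t₂) * (t₁ / (t₁ + t₂)) = t₁ := by field_simp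
    have e2 : (t₁ + t₂) * (t₂ / (t₁ + t₂)) = t₂ := by field_simp
    have hCI' := hCI (t₁ + t₂) hT.le
    rw [e1, e2] at hCI'
    have hV := (hVLE (d + e) C (t₁ + t₂) hC hT.le).trans hCI'
    have hV' : volume C ≤ ENNReal.ofReal (√(t₁ / (t₁ + t₂)) ^ d * √(t₂ / (t₁ + t₂)) ^ e) *
        ((ENNReal.ofReal (8 * √(d : ℝ)) * volume C₁) * (ENNReal.ofReal (8 * √(e : ℝ)) * volume C₂)) :=
      hV.trans (mul_le_mul_right (mul_le_mul' hI1 hI2) _)
    have hB := hBAL d e _ _ (1 / 2) ha hb hab (by norm_num)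
    have hsr : 0 < √(t₁ / (t₁ + t₂)) ^ d * √(t₂ / (t₁ + t₂)) ^ e := by positivity
    refine le_trans ?_ (TWO_div _ _ _ _ _ _ _ _ _ (ENNReal.ofReal_pos.2 hsr).ne'
      ENNReal.ofReal_ne_top (hball d).1 (hball d).2 (hball e).1 (hball e).2 hV' hB)
    rw [hMVN (d + e)]
    exact iInf_le (fun C : {C : Set (E (d + e)) // ConstWidth C 1} =>
      volume C.1 / volume (Metric.closedBall (0 : E (d + e)) (1 / 2))) ⟨C, hC⟩
  have hk1 : ENNReal.ofReal (8 * √(d : ℝ)) ≠ 0 := (ENNReal.ofReal_pos.2 (by positivity)).ne'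
  have hk2 : ENNReal.ofReal (8 * √(e : ℝ)) ≠ 0 := (ENNReal.ofReal_pos.2 (by positivity)).ne'
  have hKne : ENNReal.ofReal (8 * √(d : ℝ)) * ENNReal.ofReal (8 * √(e : ℝ)) ≠ 0 := mul_ne_zero hk1 hk2
  have hKtop : ENNReal.ofReal (8 * √(d : ℝ)) * ENNReal.ofReal (8 * √(e : ℝ)) ≠ ∞ :=
    ENNReal.mul_ne_top ENNReal.ofReal_ne_top ENNReal.ofReal_ne_top
  have hr3 : (0 : ℝ) < √3 - 1 := by
    have : (1 : ℝ) < √3 := by
      rw [show (1 : ℝ) = √1 by simp]
      exact Real.sqrt_lt_sqrt (by norm_num) (by norm_num)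
    linarith
  have hme0 : mvol e ≠ 0 := by
    have := (hMVB e he).2
    exact (lt_of_lt_of_le (ENNReal.ofReal_pos.2 (by positivity)) this).ne'
  have hmet : mvol e ≠ ∞ := ((hMVB e he).1.trans_lt ENNReal.one_lt_top).ne
  rw [hK]
  -- first infimum
  have step1 : ∀ C₁ : Set (E d), ConstWidth C₁ 1 →
      mvol (d + e) ≤ (ENNReal.ofReal (8 * √(d : ℝ)) * ENNReal.ofReal (8 * √(e : ℝ))) *
        (volume C₁ / volume (Metric.closedBall (0 : E d) (1 / 2))) * mvol e := by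
    intro C₁ h1
    obtain ⟨hv1, hv2, hv3⟩ := hVON d C₁ h1
    have hvt : volume C₁ ≠ ∞ := by rw [← hv1]; exact (hv3 1).ne
    have ha0 : volume C₁ / volume (Metric.closedBall (0 : E d) (1 / 2)) ≠ 0 :=
      (ENNReal.div_pos hv2.ne' (hball d).2).ne'
    have hat : volume C₁ / volume (Metric.closedBall (0 : E d) (1 / 2)) ≠ ∞ :=
      ENNReal.div_ne_top hvt (hball d).1
    rw [hMVN e, ENNReal.mul_iInf_of_ne (mul_ne_zero hKne ha0) (ENNReal.mul_ne_top hKtop hat)]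
    refine le_iInf fun C₂ => ?_
    rw [mul_assoc]
    exact key C₁ C₂.1 h1 C₂.2
  have step2 : mvol (d + e) ≤ ⨅ C : {C : Set (E d) // ConstWidth C 1},
      ((ENNReal.ofReal (8 * √(d : ℝ)) * ENNReal.ofReal (8 * √(e : ℝ))) * mvol e) *
        (volume C.1 / volume (Metric.closedBall (0 : E d) (1 / 2))) := by
    refine le_iInf fun C₁ => ?_
    have := step1 C₁.1 C₁.2
    rwa [mul_right_comm] at this
  rw [← ENNReal.mul_iInf_of_ne (mul_ne_zero hKne hme0) (ENNReal.mul_ne_top hKtop hmet),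
    ← hMVN d] at step2
  rw [mul_comm (mvol d), ← mul_assoc]
  exact step2

end Pool.Agent.CL
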